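import Pool.Agent.W617.LG.StmI

/-! Project LG, part LG-TR2: back to matrices. -/

set_option autoImplicit false

namespace Pool.Agent.W490.LG

open Pool.Agent.W617.LG
open scoped InnerProductSpace Matrix

lemma expand {q : ℕ} (G₀ : E q →L[ℝ] E q) (x : Fin (q + 2) → ℝ) :
    x ⬝ᵥ (Matrix.of fun i j : Fin (q + 2) =>
      ⟪G₀ (EuclideanSpace.single i (1 : ℝ)), EuclideanSpace.single j (1 : ℝ)⟫_ℝ) *ᵥ x =
      ⟪G₀ (WithLp.toLp 2 x), WithLp.toLp 2 x⟫_ℝ := by
  have hx : (WithLp.toLp 2 x : E q) = ∑ i, x i • (EuclideanSpace.single i (1 : ℝ) : E q) := by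
    ext k
    simp [Finset.sum_apply, Pi.single_apply]
  conv_rhs => rw [hx]
  rw [map_sum, sum_inner]
  simp only [dotProduct, Matrix.mulVec, Finset.mul_sum, inner_sum, map_smul, inner_smul_left,
    inner_smul_right, Matrix.of_apply]
  refine Finset.sum_congr rfl fun i _ => Finset.sum_congr rfl fun j _ => ?_
  simp
  ring

theorem tr2 : S_TR2 := by
  intro q F G₀ hpos hhom hsym hG hF
  refine ⟨Matrix.of fun i j : Fin (q + 2) =>
      ⟪G₀ (EuclideanSpace.single i (1 : ℝ)), EuclideanSpace.single j (1 : ℝ)⟫_ℝ, ?_, ?_⟩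
  · apply Matrix.PosDef.of_dotProduct_mulVec_pos
    · ext i j
      simp only [Matrix.conjTranspose_apply, Matrix.of_apply, star_trivial]
      exact hsym _ _
    · intro x hx
      rw [star_trivial, expand]
      apply hG
      intro h
      apply hx
      exact (WithLp.toLp_eq_zero 2).1 h
  · intro x
    rw [expand]
    by_cases hx : x = 0
    · have h0 := hhom 0 x le_rfl
      subst hx
      rw [zero_smul, zero_mul] at h0
      rw [h0]
      simp
    · have h1 := hF (WithLp.toLp 2 x) (fun h => hx ((WithLp.toLp_eq_zero 2).1 h))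
      rw [← h1]
      rw [Real.sqrt_sq]
      exact (hpos _ hx).le

end Pool.Agent.W490.LG
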